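import Pool.Agent.H75.L.W662.CB.Stmts

set_option autoImplicit false

open MeasureTheory Filter Topology Complex
open scoped InnerProductSpace ENNReal

namespace Pool.Agent.W371.CB

open Pool.Agent.W662.CB

/-- the fourth root of unity attached to an exponent -/
noncomputable def ep (j : Fin 4) : ℂ := I ^ (j : ℕ)

theorem ep_succ (j : Fin 4) : ep (j + 1) = I * ep j := by
  unfold ep
  fin_cases j
  · simp
  · simp [pow_succ]
  · simp [pow_succ]
  · simp [pow_succ]

theorem ep_conj_mul (j : Fin 4) : starRingEnd ℂ (ep j) * ep j = 1 := by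
  unfold ep
  rw [map_pow, ← mul_pow, conj_I]
  simp

/-- a function which is multiplied by a constant `c ≠ 1` under a translation has sum zero -/
theorem sum_zero {ι : Type} [Fintype ι] [DecidableEq ι] (φ : (ι → Fin 4) → ℂ) (a : ι) (c : ℂ)
    (hc : c ≠ 1) (h : ∀ e : ι → Fin 4, φ (e + Pi.single a (1 : Fin 4)) = c * φ e) :
    ∑ e, φ e = 0 := by
  have h1 : ∑ e : ι → Fin 4, φ (e + Pi.single a (1 : Fin 4)) = ∑ e : ι → Fin 4, φ e :=
    Fintype.sum_equiv (Equiv.addRight (Pi.single a (1 : Fin 4) : ι → Fin 4)) _ _ fun _ => rfl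
  have h2 : ∑ e : ι → Fin 4, φ (e + Pi.single a (1 : Fin 4)) = c * ∑ e : ι → Fin 4, φ e := by
    rw [Finset.mul_sum]
    exact Finset.sum_congr rfl fun e _ => h e
  have h3 : (c - 1) * ∑ e, φ e = 0 := by
    rw [sub_mul, one_mul, ← h2, h1, sub_self]
  rcases mul_eq_zero.mp h3 with h4 | h4
  · exact absurd (sub_eq_zero.mp h4) hc
  · exact h4

theorem ep_shift {ι : Type} [DecidableEq ι] (e : ι → Fin 4) (a m : ι) :
    ep ((e + Pi.single a (1 : Fin 4) : ι → Fin 4) m) = (if m = a then I else 1) * ep (e m) := by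
  by_cases hm : m = a
  · subst hm
    rw [if_pos rfl, Pi.add_apply, Pi.single_eq_same, ep_succ]
  · rw [if_neg hm, Pi.add_apply, Pi.single_eq_of_ne hm, add_zero, one_mul]

/-- coefficient of a pair -/
noncomputable def co {ι : Type} (x : ι × ι) (e : ι → Fin 4) : ℂ :=
  starRingEnd ℂ (ep (e x.1)) * ep (e x.2)

theorem co_shift {ι : Type} [DecidableEq ι] (e : ι → Fin 4) (a : ι) (x : ι × ι) :
    co x (e + Pi.single a (1 : Fin 4)) =
      ((if x.1 = a then -I else 1) * (if x.2 = a then I else 1)) * co x e := by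
  unfold co
  rw [ep_shift, ep_shift, map_mul]
  have : starRingEnd ℂ (if x.1 = a then I else 1) = (if x.1 = a then -I else 1) := by
    split_ifs
    · exact conj_I
    · exact map_one _
  rw [this]
  ring

/-- the expected products of coefficients -/
noncomputable def gg {ι : Type} [DecidableEq ι] (x y : ι × ι) : ℂ :=
  if x.1 = x.2 then (if y.1 = y.2 then 1 else 0) else (if y = x then 1 else 0)

theorem sum_co {ι : Type} [Fintype ι] [DecidableEq ι] (x y : ι × ι) :
    ∑ e : ι → Fin 4, starRingEnd ℂ (co x e) * co y e =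
      (Fintype.card (ι → Fin 4) : ℂ) * gg x y := by
  obtain ⟨m, n⟩ := x
  obtain ⟨p, q⟩ := y
  unfold gg
  have hI : (I : ℂ) ≠ 1 := by
    intro h
    have := congrArg Complex.im h
    simp at this
  have hI2 : (-I : ℂ) ≠ 1 := by
    intro h
    have := congrArg Complex.im h
    simp at this
  have hsh : ∀ (a : ι) (e : ι → Fin 4),
      starRingEnd ℂ (co (m, n) (e + Pi.single a (1 : Fin 4))) *
        co (p, q) (e + Pi.single a (1 : Fin 4)) =
      (((if m = a then I else 1) * (if n = a then -I else 1)) *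
        ((if p = a then -I else 1) * (if q = a then I else 1))) *
        (starRingEnd ℂ (co (m, n) e) * co (p, q) e) := by
    intro a e
    rw [co_shift, co_shift, map_mul, map_mul]
    have h1 : starRingEnd ℂ (if m = a then -I else 1) = (if m = a then I else 1) := by
      split_ifs
      · rw [map_neg, conj_I, neg_neg]
      · exact map_one _
    have h2 : starRingEnd ℂ (if n = a then I else 1) = (if n = a then -I else 1) := by
      split_ifs
      · exact conj_I
      · exact map_one _
    simp only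
    rw [h1, h2]
    ring
  by_cases hmn : m = n
  · subst hmn
    rw [if_pos rfl]
    by_cases hpq : p = q
    · subst hpq
      rw [if_pos rfl]
      have : ∀ e : ι → Fin 4, starRingEnd ℂ (co (m, m) e) * co (p, p) e = 1 := by
        intro e
        unfold co
        simp only
        rw [ep_conj_mul, ep_conj_mul, map_one, one_mul]
      rw [Finset.sum_congr rfl fun e _ => this e]
      simp
    · rw [if_neg hpq, mul_zero]
      refine sum_zero _ p _ ?_ (hsh p)
      rw [if_pos (rfl : p = p), if_neg (Ne.symm hpq : q ≠ p)]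
      by_cases hmp : m = p
      · rw [if_pos hmp, if_pos hmp]
        simpa using hI2
      · rw [if_neg hmp, if_neg hmp]
        simpa using hI2
  · rw [if_neg (show ¬ ((m, n) : ι × ι).1 = ((m, n) : ι × ι).2 from hmn)]
    by_cases hyx : ((p, q) : ι × ι) = (m, n)
    · rw [if_pos hyx]
      obtain ⟨rfl, rfl⟩ := Prod.mk.inj hyx
      have : ∀ e : ι → Fin 4, starRingEnd ℂ (co (p, q) e) * co (p, q) e = 1 := by
        intro e
        unfold co
        simp only
        rw [map_mul, Complex.conj_conj]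
        calc ep (e p) * starRingEnd ℂ (ep (e q)) * (starRingEnd ℂ (ep (e p)) * ep (e q))
            = (starRingEnd ℂ (ep (e p)) * ep (e p)) * (starRingEnd ℂ (ep (e q)) * ep (e q)) := by
              ring
          _ = 1 := by rw [ep_conj_mul, ep_conj_mul, one_mul]
      rw [Finset.sum_congr rfl fun e _ => this e]
      simp
    · rw [if_neg hyx, mul_zero]
      by_cases hpm : p = m
      · by_cases hqm : q = m
        · refine sum_zero _ m _ ?_ (hsh m)
          rw [if_pos rfl, if_neg (Ne.symm hmn), if_pos hpm, if_pos hqm]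
          simpa using hI
        · have hqn : q ≠ n := by
            intro h
            exact hyx (by rw [hpm, h])
          refine sum_zero _ n _ ?_ (hsh n)
          rw [if_neg hmn, if_pos rfl, if_neg (by rw [hpm]; exact hmn), if_neg hqn]
          simpa using hI2
      · by_cases hqm : q = m
        · refine sum_zero _ m _ ?_ (hsh m)
          rw [if_pos rfl, if_neg (Ne.symm hmn), if_neg hpm, if_pos hqm]
          norm_num
        · refine sum_zero _ m _ ?_ (hsh m)
          rw [if_pos rfl, if_neg (Ne.symm hmn), if_neg hpm, if_neg hqm]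
          simpa using hI

theorem isq {H : Type} [NormedAddCommGroup H] [InnerProductSpace ℂ H] (x : H) :
    ⟪x, x⟫_ℂ = ((‖x‖ ^ 2 : ℝ) : ℂ) := by
  rw [inner_self_eq_norm_sq_to_K (𝕜 := ℂ)]
  norm_cast

/-- averages of squared norms of random sums -/
theorem avg_sq {H α κ : Type} [NormedAddCommGroup H] [InnerProductSpace ℂ H] [Fintype α]
    [Nonempty α] [Fintype κ] (c : κ → α → ℂ) (w : κ → H) (g : κ → κ → ℂ)
    (hg : ∀ x y, ∑ e, starRingEnd ℂ (c x e) * c y e = (Fintype.card α : ℂ) * g x y) :
    ((av (fun e => ‖∑ x, c x e • w x‖ ^ 2) : ℝ) : ℂ) = ∑ x, ∑ y, g x y * ⟪w x, w y⟫_ℂ := by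
  have hcard : (Fintype.card α : ℂ) ≠ 0 := by
    exact_mod_cast Fintype.card_ne_zero
  unfold av
  rw [Complex.ofReal_mul, Complex.ofReal_sum, Complex.ofReal_inv, Complex.ofReal_natCast]
  have h1 : ∀ e : α, ((‖∑ x, c x e • w x‖ ^ 2 : ℝ) : ℂ) =
      ∑ x, ∑ y, (starRingEnd ℂ (c x e) * c y e) * ⟪w x, w y⟫_ℂ := by
    intro e
    rw [← isq, sum_inner]
    refine Finset.sum_congr rfl fun x _ => ?_
    rw [inner_sum]
    refine Finset.sum_congr rfl fun y _ => ?_
    rw [inner_smul_left, inner_smul_right]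
    ring
  rw [Finset.sum_congr rfl fun e _ => h1 e, Finset.sum_comm, Finset.mul_sum]
  refine Finset.sum_congr rfl fun x _ => ?_
  rw [Finset.sum_comm, Finset.mul_sum]
  refine Finset.sum_congr rfl fun y _ => ?_
  rw [← Finset.sum_mul, hg, ← mul_assoc, ← mul_assoc, inv_mul_cancel₀ hcard, one_mul]

theorem c2 : S_C2 := by
  intro H _ _ ι _ _ w
  have key := avg_sq (H := H) (α := ι → Fin 4) (κ := ι × ι) (fun x e => co x e)
    (fun x => w x.1 x.2) gg (fun x y => sum_co x y)
  have hl : (av (fun e : ι → Fin 4 =>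
      ‖∑ m, ∑ n, ((starRingEnd ℂ (I ^ (e m : ℕ))) * I ^ (e n : ℕ)) • w m n‖ ^ 2)) =
      av (fun e : ι → Fin 4 => ‖∑ x : ι × ι, co x e • w x.1 x.2‖ ^ 2) := by
    have : ∀ e : ι → Fin 4,
        ∑ m, ∑ n, ((starRingEnd ℂ (I ^ (e m : ℕ))) * I ^ (e n : ℕ)) • w m n =
        ∑ x : ι × ι, co x e • w x.1 x.2 := by
      intro e
      rw [Fintype.sum_prod_type]
      rfl
    simp only [this]
  rw [hl]
  have hr : ((‖∑ m, w m m‖ ^ 2 + ∑ m, ∑ n, (if m = n then 0 else ‖w m n‖ ^ 2) : ℝ) : ℂ) =
      ∑ x : ι × ι, ∑ y : ι × ι, gg x y * ⟪w x.1 x.2, w y.1 y.2⟫_ℂ := by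
    have hx : ∀ x : ι × ι, ∑ y : ι × ι, gg x y * ⟪w x.1 x.2, w y.1 y.2⟫_ℂ =
        (if x.1 = x.2 then ⟪w x.1 x.2, ∑ p, w p p⟫_ℂ else 0) +
          (if x.1 = x.2 then 0 else ((‖w x.1 x.2‖ ^ 2 : ℝ) : ℂ)) := by
      intro x
      by_cases h : x.1 = x.2
      · rw [if_pos h, if_pos h, add_zero, inner_sum, Fintype.sum_prod_type]
        refine Finset.sum_congr rfl fun p _ => ?_
        rw [Finset.sum_eq_single p]
        · unfold gg
          simp only
          rw [if_pos h, if_pos trivial, one_mul]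
        · intro q _ hq
          unfold gg
          simp only
          rw [if_pos h, if_neg (Ne.symm hq), zero_mul]
        · intro h'
          exact absurd (Finset.mem_univ _) h'
      · rw [if_neg h, if_neg h, zero_add, Finset.sum_eq_single x]
        · unfold gg
          rw [if_neg h, if_pos rfl, one_mul, isq]
        · intro y _ hy
          unfold gg
          rw [if_neg h, if_neg hy, zero_mul]
        · intro h'
          exact absurd (Finset.mem_univ _) h'
    rw [Finset.sum_congr rfl fun x _ => hx x, Finset.sum_add_distrib, Fintype.sum_prod_type,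
      Fintype.sum_prod_type]
    have ha : ∑ m : ι, ∑ n : ι, (if m = n then ⟪w m n, ∑ p, w p p⟫_ℂ else 0) =
        ((‖∑ m, w m m‖ ^ 2 : ℝ) : ℂ) := by
      have h1 : ∀ m : ι, ∑ n : ι, (if m = n then ⟪w m n, ∑ p, w p p⟫_ℂ else 0) =
          ⟪w m m, ∑ p, w p p⟫_ℂ := by
        intro m
        rw [Finset.sum_ite_eq]
        simp
      rw [Finset.sum_congr rfl fun m _ => h1 m, ← sum_inner, isq]
    have hb : ∑ m : ι, ∑ n : ι, (if m = n then (0 : ℂ) else ((‖w m n‖ ^ 2 : ℝ) : ℂ)) =
        ((∑ m, ∑ n, (if m = n then 0 else ‖w m n‖ ^ 2) : ℝ) : ℂ) := by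
      rw [Complex.ofReal_sum]
      refine Finset.sum_congr rfl fun m _ => ?_
      rw [Complex.ofReal_sum]
      refine Finset.sum_congr rfl fun n _ => ?_
      split_ifs
      · exact Complex.ofReal_zero.symm
      · rfl
    simp only at ha hb ⊢
    rw [ha, hb, ← Complex.ofReal_add]
  have := key.trans hr.symm
  exact Complex.ofReal_injective this

end Pool.Agent.W371.CB
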